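import Pool.Agent.Q282.DL.Weak

set_option autoImplicit false

/-! # The motivic monodromy conjecture at the origin for products of powers of forms over ideals with
# Rees divisors

Let `g t j ∈ ℂ[x_i]`, `t ∈ T`, be generators of ideals `I_t ≠ 0` (no condition on the dimension, on
the number of the ideals or on their zero sets), let `F_t = ∑_j y_{t,j} g t j`, where the `y_{t,j}`
are further variables, separate for each `t` (`blockForm`), and let `f = ∏ t, F_t ^ a t` (`powProd`).
Let `Y` be a log resolution of the product of the `I_t` with `a t > 0`, with the components `E_i`,
`i ∈ I`, let `k i` be the multiplicity of `E_i` in the relative canonical divisor and `m i t` the order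
of `I_t` along `E_i`. Locally on `Y` the form `F_t` is one of the `g t j` times
`y_{t,j} + ∑_{i ≠ j} h_i y_{t,i}`, so it is a monomial times a function whose zero locus is smooth;
these zero loci, for the different `t`, cross each other and the `E_i` normally. Hence `Y` times the
space of the `y` is an embedded resolution of `f`, with the components `E_i`, of multiplicity
`N_i = ∑ t, a t * m i t` (and `ν_i = k i + 1`), and, for `a t > 0`, the strict transform of `F_t = 0`, of
multiplicity `a t` (and `ν = 1`): `mulR`, `nuR`.

By the formula of Denef and Loeser the local motivic zeta function of `f` at the origin is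
`∑_J c_J ∏_{i ∈ J} 𝕃 ^ (-ν_i) T ^ (N_i) / (1 - 𝕃 ^ (-ν_i) T ^ (N_i))` (`dlZ`), where `J` runs over the
non-empty sets of components and `c_J` is `𝕃 ^ (-n) (𝕃 - 1) ^ |J|` times the class of the part of the
stratum `J` over the origin. The ring `R` below is a commutative ring with a unit `u`, for example
`R = 𝓜_ℂ` with `u = 𝕃`.

Only the numbers `-ν_i / N_i` modulo `ℤ` matter for the monodromy eigenvalues. So it is enough that
`-ν_i / N_i` is congruent modulo `ℤ` to the number `-(k_E + 1 + l) / N_E` of some Rees divisor `E` near the
origin, or to the number `-(1 + l) / a t` of a strict transform; in particular the `E_i` with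
`N_i ∣ ν_i` are free (`fromReesMod_of_dvd`), as are the `E_i` with `N_i ∣ a t` for some `t`.

The proof: a functional equation of `f` gives a functional equation of the product of the powers of
the ideals, with the same `b` (`locEq_of_powProd`); a Rees divisor of this product gives roots, by a
residue computation at a general point of `E_i` (`rees_prod`); the roots `-(1 + l) / a t` come from the
strict transforms (`strict_root`). -/

namespace Pool.Agent.Results.MP_9321be_ag.ReesProductsLocal

open Pool.Agent.H628R4.TP Pool.Agent.TH192.DT Pool.Agent.Y231.RF Pool.Agent.Y228.RR
  Pool.Agent.Q282.DL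

/-- **The motivic monodromy conjecture at the origin for products of powers of forms over ideals, in
terms of Rees divisors modulo `ℤ`.** Let `Z = dlZ u (nuR k T) (mulR a m) c` be a series which is given
by the formula of Denef and Loeser on the resolution described above, with arbitrary coefficients
`c J` in a commutative ring `R` with a unit `u` (`𝓜_ℂ` and `𝕃`). Suppose that, for the components `E_i`
with `N_i > 0` which occur (`Occ`: they are in a set `J` with `c J ≠ 0`, that is, in a stratum which
meets the fibre over the origin), the number `-ν_i / N_i` is, for every `H` with `H(0) ≠ 0`, congruent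
modulo `ℤ` to the number of a Rees divisor over points with `H ≠ 0` (`FromRees`) or to a number
`-(1 + l) / a t`, `l < a t` (`FromReesMod`). Then there is a finite set `P` of pairs `(b1, b2)`,
`b1 < 0 < b2`, such that `Z` lies in the ring generated over `R` by `T` and the
`1 / (1 - u ^ b1 T ^ b2)`, `(b1, b2) ∈ P`, and such that, for every `b` with
`b(s) f ^ s = P(s) f ^ (s + 1)`, `P(s)` a differential operator with formal (in particular convergent)
power series at the origin as coefficients, some `b1 / b2 - i`, `i ∈ ℤ`, is a root of `b`
(`RootModZ`), in particular for the local Bernstein-Sato polynomial of `f` at the origin: so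
`exp(2 π i b1 / b2)` is a monodromy eigenvalue of `f` at a point in each neighbourhood of the origin
(Malgrange, Kashiwara).

`FromRees g a H ν N` says that `ν / N = (k_E + 1 + l) / N_E` for a Rees divisor `E` of the product of the
ideals `I_t` with `a t ≠ 0` and a general point of `E` over a point of the affine space at which `H`
does not vanish, where `k_E` is the multiplicity of `E` in the relative canonical divisor, `N_E` is
the order of `∏ t, I_t ^ a t` along `E`, and `l < N_E` is the order along `E` of some polynomial (for
instance `1`, with `l = 0`); for a component `E_i` which meets the fibre over the origin and which is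
itself a Rees divisor this is so for every `H` with `H(0) ≠ 0`, with `E = E_i` and `l = 0`.

`Chart g` is a formal chart of the resolution at a point `p` of a prime divisor `E` over the affine
space: power series `ξ i` (the coordinates `x i` of the affine space), in formal coordinates at `p`
one of which, `z`, is the equation of `E`, whose Jacobian determinant is `z ^ k` times a unit, and
for which each `I_t` becomes `(z ^ m t)`. `E.IsRees A` says that the map from `E` to the product of
the affine space and of the projective spaces of the generators of the `I_t`, `t ∈ A`, is unramified
at `p`: some functions which together with `z` are formal coordinates at `p` are pull-backs of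
polynomials or of quotients `(∑ j, c_j g s j) / g s (j0 s)`, `s ∈ A`. This is so at the general points
of a divisor `E` if and only if `E` is a Rees divisor of the product of the `I_t`, `t ∈ A` (it is not
contracted in the blow-up of the product). -/
theorem result {σ T I : Type} [Fintype σ] [DecidableEq σ] [Fintype T] [DecidableEq T] [Fintype I]
    {κ : T → Type} [∀ t, Fintype (κ t)] [∀ t, DecidableEq (κ t)]
    (g : (t : T) → κ t → MvPolynomial σ ℂ) (hg : ∀ t, ∃ j, g t j ≠ 0) (a : T → ℕ)
    (k : I → ℕ) (m : I → T → ℕ) {R : Type} [CommRing R] (u : Rˣ)
    (c : Finset {x // 0 < mulR a m x} → R)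
    (hE : ∀ (i : I) (hi : 0 < ∑ t, a t * m i t), Occ c ⟨Sum.inl i, hi⟩ →
      ∀ H : MvPolynomial σ ℂ, MvPolynomial.constantCoeff H ≠ 0 →
        FromReesMod g a H (k i + 1) (∑ t, a t * m i t)) :
    ∃ P : Finset (ℤ × ℤ), (∀ q ∈ P, q.1 < 0 ∧ 0 < q.2 ∧
      ∀ b : Polynomial ℂ, IsLocalBFunction (powProd a g) b → RootModZ b ((q.1 : ℂ) / q.2)) ∧
      dlZ u (nuR k T) (mulR a m) c ∈ ratU u (P : Set (ℤ × ℤ)) :=
  rees_loc_weak g hg a k m u c hE

end Pool.Agent.Results.MP_9321be_ag.ReesProductsLocal
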