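import Pool.Agent.Q300.LM.Main

/-!
# The strong motivic monodromy conjecture at the origin for stably sparse germs

Let `f ∈ ℂ[x_1, …, x_n]` be nonconstant, `f(0) = 0`. The germ of `f` at the origin is called stably
sparse here if for some `κ ≥ 0` the function `f(x) + y_1 z_1 + ⋯ + y_κ z_κ` becomes, in suitable formal
coordinates at the origin and up to a unit factor, a polynomial `G = ∑_j c_j X ^ (v j)` with affinely
independent exponents `v j` and arbitrary `c_j ≠ 0`. We prove that the local motivic zeta function of
`f` at the origin, `𝕃 ^ (-n) ∑_{N ≥ 1} [𝒳_N] (𝕃 ^ (-n) T) ^ N`, `𝒳_N` the `N`-jets with origin `0` on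
which `f` has order `N`, lies in the ring generated by `T` and finitely many `1 / (1 - 𝕃 ^ a T ^ b)`
such that `a / b` ITSELF (not only modulo integers) is a root of the local Bernstein-Sato polynomial
`b_{f,0}`; so, by the theorem of Malgrange and Kashiwara, `exp(2 π i a / b)` is an eigenvalue of the
monodromy of `f` at points of `{f = 0}` arbitrarily near to `0` (and `a < 0`).

This contains the germs which have affinely independent exponents in suitable formal coordinates
(`κ = 0`) and (second part) the restrictions `f` of a polynomial `l_0(x, z)` to a smooth germ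
`{l_1(x, z) = ⋯ = l_κ(x, z) = 0}` such that `l_0 + ∑ y_i l_i` has affinely independent exponents, for
instance `f = x ^ u ∏_i (x ^ (α_i) - λ_i x ^ (β_i)) ^ (e_i)` with linearly independent `α_i - β_i`, and
compositions such as `(x_2 ^ 2 - x_1 ^ 3) ^ 2 - x_1 ^ 5 x_2`. The germs are in general degenerate with
respect to their Newton polyhedra in all coordinates, not reduced, and their singularities are not
isolated; no resolution is used.

Method. (1) The classes of the `N`-jets with origin `0` on which `F` has order `N` (or order at least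
`i`) are invariant under formal changes of coordinates and multiplication of `F` by a unit; the
inverse of a formal change of coordinates is constructed up to any order by Newton's method. (2) By
the classification of the jets of `F + y z` (starting library, `Y229.MS`) the classes for `F` determine
those for `F + y z` for all origins `(0, y, z)`; the origins `(0, y, z)` different from `0` are smooth
points and contribute only the factor `1 / (1 - 𝕃 ^ (-1) T)` (`Q59.TR`). So the local motivic zeta
functions of `G` and `G + y z` determine that of `f`. (3) The theorem on affinely independent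
exponents at the origin (starting library, `TH216.LR`) is refined: `(1 - 𝕃 ^ (-1) T) Z_{G,0}(T)` has
only the denominators `1 - 𝕃 ^ (- |a|) T ^ (N_a)` such that `- |a| / N_a` is a root of every `c(s)`
with `(s + 1) c(s)` in the local Bernstein-Sato ideal of `G`. (4) A local functional equation of `f`
with `(s + 1) c(s)` gives one of `G` with `(s + 1) c(s + κ)`.
-/

set_option autoImplicit false

namespace Pool.Agent.Results.MP_9321be_ag.StablySparseGerms

open MvPolynomial Pool.Agent.W428.MOT
open Pool.Agent.W749.NM (zetaN)
open Pool.Agent.Y229.RE (emb yv)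
open Pool.Agent.Y229.PS (Becomes)
open Pool.Agent.H628R4.TP (IsLocalBFunction)

/-- The strong form of the motivic monodromy conjecture for `f` at the origin: the local motivic zeta
function `zetaN f 0 = 𝕃 ^ (-n) ∑_{N ≥ 1} [𝒳_N] (𝕃 ^ (-n) T) ^ N` lies in the ring `ratRing ℂ S`
generated over `K₀(Var_ℂ)[𝕃⁻¹]` by `T` and the `1 / (1 - 𝕃 ^ a T ^ b)`, `(a, b) ∈ S`, for a finite set
`S` of pairs of integers such that `b > 0` and `a / b` is a root of every polynomial `B` with
`B(s) f ^ s = P(s) f ^ (s + 1)`, `P(s)` a differential operator with (formal, in particular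
convergent) power series at the origin as coefficients, polynomial in `s`; in particular of the
Bernstein-Sato polynomial `b_{f,0}`. -/
def StrongMC0 {n : ℕ} (f : MvPolynomial (Fin n) ℂ) : Prop :=
  ∃ S : Finset (ℤ × ℤ),
    (∀ p ∈ S, 0 < p.2 ∧ ∀ B : Polynomial ℂ, IsLocalBFunction f B →
      B.eval ((p.1 : ℂ) / p.2) = 0) ∧
    zetaN f 0 ∈ ratRing ℂ (S : Set (ℤ × ℤ))

/-- **The strong motivic monodromy conjecture at the origin for stably sparse germs.**

Let `v j ≠ 0`, `j = 1, …, r`, be affinely independent exponents of monomials in the variables `x_i`,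
`y_j`, `z_j` (`n + 2 κ` variables), `c_j ≠ 0`, and let `f ∈ ℂ[x_1, …, x_n]` be nonconstant.

First part. Let `f(0) = 0` and let `f(x) + ∑_{i ≤ κ} y_i z_i` become `∑_j c_j X ^ (v j)`, up to a unit
factor, in suitable formal coordinates at the origin (`Becomes`). Then `StrongMC0 f`.

Second part. Let `l_0, …, l_κ` be polynomials in `x, z` without constant terms such that the matrix of
the `∂ l_i / ∂ z_j`, `i ≥ 1`, is invertible at the origin and `l_0 + ∑ y_i l_i = ∑_j c_j X ^ (v j)`. Let
`f` be the restriction of `l_0` to `{l_1 = ⋯ = l_κ = 0}`, that is `l_0 = f + ∑ q_i l_i` with formal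
power series `q_i`, and let `q_i(0) = 0` (which is automatic if `l_0` has no linear part). Then
`StrongMC0 f`. -/
theorem result {n κ r : ℕ} (hr : 1 ≤ r) (v : Fin r → Fin (n + (κ + κ)) → ℕ)
    (hv : AffineIndependent ℚ (fun j => (fun i => (v j i : ℚ) : Fin (n + (κ + κ)) → ℚ)))
    (hv0 : ∀ j, v j ≠ 0) (c : Fin r → ℂ) (hc : ∀ j, c j ≠ 0)
    (f : MvPolynomial (Fin n) ℂ) (hf : f.totalDegree ≠ 0) :
    (constantCoeff f = 0 →
      Becomes (f : MvPowerSeries (Fin n) ℂ) κ (∑ j, C (c j) * ∏ i, X i ^ v j i) →
      StrongMC0 f) ∧
    (∀ l : Fin (κ + 1) → MvPolynomial (Fin (n + κ)) ℂ,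
      (∀ i, constantCoeff (l i) = 0) →
      (Matrix.of fun i j : Fin κ => coeff (Finsupp.single (Fin.natAdd n j) 1)
        (l i.succ)).det ≠ 0 →
      rename emb (l 0) + ∑ i : Fin κ, X (yv n i) * rename emb (l i.succ) =
        ∑ j, C (c j) * ∏ i, X i ^ v j i →
      ∀ q : Fin κ → MvPowerSeries (Fin (n + κ)) ℂ,
        (∀ i, MvPowerSeries.constantCoeff (q i) = 0) →
        (l 0 : MvPowerSeries (Fin (n + κ)) ℂ) =
          MvPowerSeries.rename (Fin.castAdd κ) (f : MvPowerSeries (Fin n) ℂ) +
            ∑ i, q i * (l i.succ : MvPowerSeries (Fin (n + κ)) ℂ) →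
        StrongMC0 f) := by
  have key : constantCoeff f = 0 →
      Becomes (f : MvPowerSeries (Fin n) ℂ) κ (∑ j, C (c j) * ∏ i, X i ^ v j i) →
      StrongMC0 f := by
    intro hf0 hB
    obtain ⟨S, hS, hz⟩ := Pool.Agent.Q300.LM.main hr f hf hf0 v hv hv0 c hc hB
    exact ⟨S, fun p hp => ⟨(hS p hp).1, (hS p hp).2.2⟩,
      Pool.Agent.TH216.LR.zetaN_mem0 f _ hz⟩
  refine ⟨key, fun l hl0 hdet hG q hq hF => key ?_ ?_⟩
  · have h3 := congrArg (MvPowerSeries.constantCoeff (σ := Fin (n + κ)) (R := ℂ)) hF
    rw [Pool.Agent.Y229.PS.const_coe, hl0, map_add, map_sum, MvPowerSeries.constantCoeff_rename,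
      Finset.sum_eq_zero (fun i _ => by rw [map_mul, hq, zero_mul]), add_zero,
      Pool.Agent.Y229.PS.const_coe] at h3
    exact h3.symm
  · have hB := Pool.Agent.Y229.PS.becomes_emb l (fun i => hl0 i.succ) hdet
      (f : MvPowerSeries (Fin n) ℂ) q hq hF
    rwa [hG] at hB

end Pool.Agent.Results.MP_9321be_ag.StablySparseGerms
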