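import Pool.Agent.Q260.MM.Weak

/-!
# The motivic monodromy conjecture at the origin: reduction to trilinear polynomials

Let `f ∈ ℂ[x_1, …, x_n]`, `f ≠ 0`, `f(0) = 0`. For `κ ≥ κ(f)` the polynomial
`f(x) + y_1 z_1 + ⋯ + y_κ z_κ` becomes, by an automorphism of the polynomial ring which fixes the
origin, a polynomial `G` of the form `∑ a_{ijk} x_i y_j z_k` with `x_0 = y_0 = z_0 = 1`; its germ at the
origin is, up to a unit, the germ of the cubic form `∑ a_{ijk} x_i y_j z_k` at a point.

If the local motivic zeta functions of these `G` for `κ` and for `κ + 1` lie in the rings generated by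
`T` and finitely many `1 / (1 - 𝕃 ^ a T ^ b)` such that `exp(2 π i a / b)` is an eigenvalue of the
monodromy of `G` at points arbitrarily near the origin, then the same is true for `f`. So the motivic
monodromy conjecture at the origin for all polynomials is equivalent to its case of the trilinear
polynomials. The same is proved for the weaker form of the conjecture about poles.

The eigenvalues are expressed, as in the starting results of this problem, by the local
Bernstein-Sato polynomial (theorem of Malgrange and Kashiwara): `exp(2 π i a / b)` is an eigenvalue at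
points arbitrarily near the origin if and only if `a / b - i` is a root of it for some integer `i`.

The elimination for `f + y z` is from the starting library (`Pool.Agent.Y229.MS`), the automorphism and
the contribution of the smooth points over the origin are from `Pool.Agent.Q59.TR`.
-/

set_option autoImplicit false

namespace Pool.Agent.Results.MP_9321be_ag.TrilinearReduction

open MvPolynomial Pool.Agent.W375.MG Pool.Agent.W428.MOT Pool.Agent.H628R4.TP

/-- The motivic monodromy conjecture for `f` at the origin: the local motivic zeta function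
`𝕃 ^ (- n) ∑_l [{φ : φ(0) = 0, ord f(φ) = l}] (𝕃 ^ (- n) T) ^ l` of `f` (`zetaOrd f {0}`) lies in the
subring of `𝓜[[T]]` generated by `𝓜`, `T` and the `1 / (1 - 𝕃 ^ a T ^ b)`, `(a, b) ∈ S`, for a finite set
`S` of pairs with `b > 0` such that for every polynomial `B` with `B(s) f ^ s = P(s) f ^ (s + 1)`, `P(s)`
a differential operator with (formal, in particular convergent) power series at the origin as
coefficients, polynomial in `s` (`IsLocalBFunction f B`), in particular for the local Bernstein-Sato
polynomial, some `a / b - i`, `i ∈ ℤ`, is a root of `B`. By the theorem of Malgrange and Kashiwara this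
means that `exp(2 π i a / b)` is an eigenvalue of the monodromy of `f` at points of `{f = 0}`
arbitrarily near the origin. -/
def MonodromyMC0 {n : ℕ} (f : MvPolynomial (Fin n) ℂ) : Prop :=
  ∃ S : Finset (ℤ × ℤ),
    (∀ p ∈ S, 0 < p.2 ∧ ∀ b : Polynomial ℂ, IsLocalBFunction f b →
      ∃ i : ℤ, b.eval ((p.1 : ℂ) / p.2 - i) = 0) ∧
    zetaOrd f {0} ∈ ratRing ℂ (S : Set (ℤ × ℤ))

/-- The form of the conjecture about the poles: for every rational pole `s₀` of the local motivic zeta
function (it does not lie in the subring of `𝓜[[T]]` generated by `𝓜`, `T` and all the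
`1 / (1 - 𝕃 ^ a T ^ b)` with `b > 0`, `a / b ≠ s₀`) some `s₀ - i`, `i ∈ ℤ`, is a root of the local
Bernstein-Sato polynomial, i.e. `exp(2 π i s₀)` is an eigenvalue. -/
def PolesMC0 {n : ℕ} (f : MvPolynomial (Fin n) ℂ) : Prop :=
  ∀ s₀ : ℚ, IsPole (zetaOrd f {0}) s₀ →
    ∀ b : Polynomial ℂ, IsLocalBFunction f b → ∃ i : ℤ, b.eval ((s₀ : ℂ) - i) = 0

/-- `f = ∑ a_{ijk} x_i y_j z_k` with `x_0 = y_0 = z_0 = 1`: the variables can be coloured with three
colours such that every monomial of `f` is of degree at most one in the variables of each colour. -/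
def Trilinear {n : ℕ} (f : MvPolynomial (Fin n) ℂ) : Prop :=
  ∃ col : Fin n → Fin 3, ∀ w ∈ f.support, ∀ g : Fin 3,
    ∑ i ∈ Finset.univ.filter (fun i => col i = g), w i ≤ 1

theorem monodromy_iff {n : ℕ} (f : MvPolynomial (Fin n) ℂ) :
    MonodromyMC0 f ↔ Pool.Agent.Q260.MM.WkMC f := by
  constructor
  · rintro ⟨S, hS, h⟩
    exact ratRing_mono (fun p hp => hS p hp) h
  · intro h
    obtain ⟨F, hF, h1⟩ := Pool.Agent.Q260.MM.exists_finite h
    exact ⟨F, fun p hp => hF hp, h1⟩

theorem deg_of {n : ℕ} {f : MvPolynomial (Fin n) ℂ} (hf : f ≠ 0) (h0 : constantCoeff f = 0) :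
    f.totalDegree ≠ 0 := by
  intro h
  rw [totalDegree_eq_zero_iff_eq_C] at h
  apply hf
  rw [h]
  have h1 : coeff 0 f = 0 := h0
  rw [h1, C_0]

theorem ne_of {n : ℕ} {f : MvPolynomial (Fin n) ℂ} (hf : f.totalDegree ≠ 0) : f ≠ 0 := by
  rintro rfl
  exact hf totalDegree_zero

/-- **Reduction of the motivic monodromy conjecture at the origin to trilinear polynomials.** -/
theorem result :
    ((∀ (n : ℕ) (f : MvPolynomial (Fin n) ℂ), f ≠ 0 → constantCoeff f = 0 → MonodromyMC0 f) ↔
      ∀ (n : ℕ) (f : MvPolynomial (Fin n) ℂ), f ≠ 0 → constantCoeff f = 0 → Trilinear f →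
        MonodromyMC0 f) ∧
    ((∀ (n : ℕ) (f : MvPolynomial (Fin n) ℂ), f ≠ 0 → constantCoeff f = 0 → PolesMC0 f) ↔
      ∀ (n : ℕ) (f : MvPolynomial (Fin n) ℂ), f ≠ 0 → constantCoeff f = 0 → Trilinear f →
        PolesMC0 f) := by
  refine ⟨⟨fun h n f hf h0 _ => h n f hf h0, fun h n f hf h0 => ?_⟩,
    ⟨fun h n f hf h0 _ => h n f hf h0, fun h n f hf h0 => ?_⟩⟩
  · rw [monodromy_iff]
    exact Pool.Agent.Q260.MM.weak_transfer
      (fun m g hg hg0 hT => (monodromy_iff g).1 (h m g (ne_of hg) hg0 hT)) f (deg_of hf h0) h0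
  · exact Pool.Agent.Q260.MM.pole_transfer
      (fun m g hg hg0 hT => h m g (ne_of hg) hg0 hT) f (deg_of hf h0) h0

end Pool.Agent.Results.MP_9321be_ag.TrilinearReduction
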